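import Pool.Agent.VMX.StmtsA

/-!
# VMX squad (MP_e54c4c_gt), row CES: invariance and continuity of the slices
-/

set_option autoImplicit false

open Matrix Filter Topology

namespace Pool.Agent.VMX.H90

open Pool.Agent.PFS Pool.Agent.PFJ Pool.Agent.NBT

/-- choosing a convergent sequence in nonempty sets -/
theorem choose_seq {E : Type} [PseudoMetricSpace E] (S : ℕ → Set E) (v : E)
    (hne : ∀ m, (S m).Nonempty)
    (h : ∀ ε : ℝ, 0 < ε → ∀ᶠ m in atTop, ∃ y ∈ S m, dist v y < ε) :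
    ∃ y : ℕ → E, (∀ m, y m ∈ S m) ∧ Tendsto y atTop (𝓝 v) := by
  have hch : ∀ m, ∃ y ∈ S m, dist v y < Metric.infDist v (S m) + 1 / ((m : ℝ) + 1) := by
    intro m
    have h1 : Metric.infDist v (S m) < Metric.infDist v (S m) + 1 / ((m : ℝ) + 1) := by
      have : 0 < 1 / ((m : ℝ) + 1) := by positivity
      linarith
    exact (Metric.infDist_lt_iff (hne m)).1 h1
  choose y hy hd using hch
  refine ⟨y, hy, ?_⟩
  rw [Metric.tendsto_atTop']
  intro ε hε
  have h1 := h (ε / 2) (by positivity)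
  have h2 : ∀ᶠ m : ℕ in atTop, 1 / ((m : ℝ) + 1) < ε / 2 :=
    (tendsto_order.1 (tendsto_one_div_add_atTop_nhds_zero_nat (𝕜 := ℝ))).2 _ (by positivity)
  obtain ⟨N, hN⟩ := eventually_atTop.1 (h1.and h2)
  refine ⟨N, fun m hm => ?_⟩
  obtain ⟨⟨y', hy', hd'⟩, h3⟩ := hN m hm.le
  have h4 : Metric.infDist v (S m) ≤ dist v y' := Metric.infDist_le_dist_of_mem hy'
  have h5 := hd m
  rw [dist_comm]
  linarith

section Dmm

variable {n : ℕ} {C : Set (V n)}

theorem dm_trans (h : PCone C) {x y w : V n} (h1 : Dm C x y) (h2 : Dm C y w) : Dm C x w := by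
  obtain ⟨M1, hM1, h1⟩ := h1
  obtain ⟨M2, hM2, h2⟩ := h2
  refine ⟨M1 * M2, by positivity, ?_⟩
  have h3 : (M1 * M2) • w - x = M1 • (M2 • w - y) + (M1 • y - x) := by
    rw [smul_sub, smul_smul]; abel
  rw [h3]
  exact h.cl_add (h.cl_smul h2 hM1.le) h1

theorem dm_add (h : PCone C) {x y u : V n} (hy : y ∈ closure C) (h1 : Dm C x (y + u)) :
    Dm C (x + u) (y + u) := by
  obtain ⟨M, hM, h1⟩ := h1
  refine ⟨M + 1, by positivity, ?_⟩
  have h3 : (M + 1) • (y + u) - (x + u) = (M • (y + u) - x) + y := by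
    rw [add_smul, one_smul]; abel
  rw [h3]
  exact h.cl_add h1 hy

theorem dm_scale1 (h : PCone C) {x y : V n} (hx : x ∈ closure C) (hy : y ∈ closure C) {a b : ℝ}
    (ha : 0 < a) (hb : 0 < b) : Dm C (a • x + b • y) (x + y) := by
  refine ⟨a + b, by positivity, ?_⟩
  have h3 : (a + b) • (x + y) - (a • x + b • y) = b • x + a • y := by
    rw [add_smul, smul_add, smul_add]; abel
  rw [h3]
  exact h.cl_add (h.cl_smul hx hb.le) (h.cl_smul hy ha.le)

theorem dm_scale2 (h : PCone C) {x y : V n} (hx : x ∈ closure C) (hy : y ∈ closure C) {a b : ℝ}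
    (ha : 0 < a) (hb : 0 < b) : Dm C (x + y) (a • x + b • y) := by
  have h1 := dm_scale1 h (h.cl_smul hx ha.le) (h.cl_smul hy hb.le) (inv_pos.2 ha) (inv_pos.2 hb)
  rwa [smul_smul, smul_smul, inv_mul_cancel₀ ha.ne', inv_mul_cancel₀ hb.ne', one_smul,
    one_smul] at h1

end Dmm

section Main

variable {n K : ℕ} {C : Set (V n)} {Γ Γ₀ : Subgroup (GL (Fin n) ℝ)} {p : Fin K}
  {J : Finset (Fin K)} {c : Fin K → ℕ} {F : (Fin K → V n) → Prop}

/-- a vertex is a move of itself -/
theorem self_mv (hS : SL C Γ Γ₀ p J c F) {z : Fin K → V n} (hz : F z) (m : Fin K) :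
    Tm C F p m z (z p) := by
  have hcl : ∀ i, z i ∈ closure C := fun i => (hS.pes z hz).1.cl i
  refine ⟨by rw [Function.update_eq_self]; exact hz, 1, one_pos, ?_⟩
  rw [one_smul, add_sub_cancel_left]
  exact hcl m

theorem es_congr {z z' : Fin K → V n} {m : Fin K} (h1 : z m = z' m)
    (h2 : ∀ h, Tm C F p m z h ↔ Tm C F p m z' h) : Es C F p m z = Es C F p m z' := by
  unfold Es
  rw [h1]
  have h3 : {h | Tm C F p m z h} = {h | Tm C F p m z' h} := by
    ext h; exact h2 h
  rw [h3]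

theorem F_scl_iff (hS : SL C Γ Γ₀ p J c F) {z : Fin K → V n} {r : Fin K → ℝ}
    (hr : ∀ i, 0 < r i) : F (fun i => r i • z i) ↔ F z := by
  constructor
  · intro h
    have h1 := hS.scl _ h (fun i => (r i)⁻¹) (fun i => inv_pos.2 (hr i))
    have h2 : (fun i => (r i)⁻¹ • r i • z i) = z := by
      funext i
      rw [smul_smul, inv_mul_cancel₀ (hr i).ne', one_smul]
    rw [h2] at h1
    exact h1
  · intro h
    exact hS.scl _ h r hr

theorem tm_scale (hS : SL C Γ Γ₀ p J c F) {z : Fin K → V n} (hz : F z) (m : Fin K)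
    {r : Fin K → ℝ} (hr : ∀ i, 0 < r i) (h : V n) :
    Tm C F p m (fun i => r i • z i) h ↔ Tm C F p m z h := by
  have hP := hS.cc.toPCone
  have hcl : ∀ i, z i ∈ closure C := fun i => (hS.pes z hz).1.cl i
  have h1 : Function.update (fun i => r i • z i) p h =
      fun i => (Function.update r p 1) i • (Function.update z p h) i := by
    funext i
    by_cases hi : i = p
    · subst hi
      simp only [Function.update_self, one_smul]
    · simp only [Function.update_of_ne hi]
  have hr' : ∀ i, 0 < Function.update r p 1 i := by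
    intro i
    by_cases hi : i = p
    · subst hi
      simp only [Function.update_self, one_pos]
    · simp only [Function.update_of_ne hi]
      exact hr i
  unfold Tm
  rw [h1, F_scl_iff hS hr']
  refine and_congr_right fun _ => ⟨fun h2 => ?_, fun h2 => ?_⟩
  · exact dm_trans hP h2 (dm_scale1 hP (hcl p) (hcl m) (hr p) (hr m))
  · exact dm_trans hP h2 (dm_scale2 hP (hcl p) (hcl m) (hr p) (hr m))

theorem es_scale (hS : SL C Γ Γ₀ p J c F) {z : Fin K → V n} (hz : F z) (m : Fin K)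
    {r : Fin K → ℝ} (hr : ∀ i, 0 < r i) :
    Es C F p m (fun i => r i • z i) = Es C F p m z := by
  unfold Es
  have h3 : {h | Tm C F p m (fun i => r i • z i) h} = {h | Tm C F p m z h} := by
    ext h; exact tm_scale hS hz m hr h
  rw [h3, Submodule.span_union, Submodule.span_union,
    Submodule.span_singleton_smul_eq (IsUnit.mk0 _ (hr m).ne')]

theorem F_act_iff (hS : SL C Γ Γ₀ p J c F) {z : Fin K → V n} {g : GL (Fin n) ℝ} (hg : g ∈ Γ₀)
    {s : ℝ} (hs : 0 < s) : F (fun i => s • act g (z i)) ↔ F z := by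
  constructor
  · intro h
    have h1 := (F_scl_iff hS (z := fun i => act g (z i)) (r := fun _ => s) (fun _ => hs)).1 h
    have h2 := hS.inv _ h1 g⁻¹ (Γ₀.inv_mem hg)
    have h3 : (fun i => act g⁻¹ (act g (z i))) = z := by
      funext i
      exact CC.act_inv_act g (z i)
    rw [h3] at h2
    exact h2
  · intro h
    exact hS.scl _ (hS.inv _ h g hg) (fun _ => s) (fun _ => hs)

theorem act_lin (g : GL (Fin n) ℝ) (s : ℝ) (x : V n) : act g (s • x) = s • act g x :=
  Matrix.mulVec_smul _ _ _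

theorem tm_act (hS : SL C Γ Γ₀ p J c F) {z : Fin K → V n} (m : Fin K) {g : GL (Fin n) ℝ}
    (hg : g ∈ Γ₀) {s : ℝ} (hs : 0 < s) (h : V n) :
    Tm C F p m (fun i => s • act g (z i)) (s • act g h) ↔ Tm C F p m z h := by
  have hP := hS.cc.toPCone
  have h1 : Function.update (fun i => s • act g (z i)) p (s • act g h) =
      fun i => s • act g ((Function.update z p h) i) := by
    funext i
    by_cases hi : i = p
    · subst hi
      simp only [Function.update_self]
    · simp only [Function.update_of_ne hi]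
  unfold Tm
  rw [h1, F_act_iff hS hg hs]
  refine and_congr_right fun _ => ?_
  have h2 : ∀ M : ℝ, M • (s • act g (z p) + s • act g (z m)) - s • act g h =
      s • act g (M • (z p + z m) - h) := by
    intro M
    simp only [act, Matrix.mulVec_sub, Matrix.mulVec_smul, Matrix.mulVec_add, smul_sub, smul_add]
    rw [smul_comm M s, smul_comm M s]
  have h3 : ∀ y : V n, s • act g y ∈ closure C ↔ y ∈ closure C :=
    fun y => hS.cc.sact_cl_iff (hS.sub hg) hs
  unfold Dm
  constructor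
  · rintro ⟨M, hM, h4⟩
    rw [h2, h3] at h4
    exact ⟨M, hM, h4⟩
  · rintro ⟨M, hM, h4⟩
    refine ⟨M, hM, ?_⟩
    rw [h2, h3]
    exact h4

theorem es_act (hS : SL C Γ Γ₀ p J c F) {z : Fin K → V n} (hz : F z) (m : Fin K)
    {g : GL (Fin n) ℝ} (hg : g ∈ Γ₀) {s : ℝ} (hs : 0 < s) :
    Es C F p m (fun i => s • act g (z i)) = img g (Es C F p m z) := by
  have hgz : F (fun i => act g (z i)) := hS.inv _ hz g hg
  have h0 := es_scale hS hgz m (r := fun _ => s) (fun _ => hs)
  rw [h0]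
  unfold Es img
  rw [Submodule.map_span, Set.image_union, Set.image_singleton]
  have h3 : {h | Tm C F p m (fun i => act g (z i)) h} =
      (Matrix.mulVecLin (g : Matrix (Fin n) (Fin n) ℝ)) '' {h | Tm C F p m z h} := by
    have h4 : ∀ h, Tm C F p m (fun i => act g (z i)) (act g h) ↔ Tm C F p m z h := by
      intro h
      have h5 := tm_act hS (z := z) m hg one_pos h
      simp only [one_smul] at h5
      exact h5
    ext h
    simp only [Set.mem_setOf_eq, Set.mem_image]
    constructor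
    · intro h5
      refine ⟨act g⁻¹ h, ?_, ?_⟩
      · rw [← h4, CC.act_act_inv]
        exact h5
      · exact CC.act_act_inv g h
    · rintro ⟨y, hy, rfl⟩
      exact (h4 y).2 hy
  rw [h3]
  rfl

/-- limits of multiples are multiples -/
theorem mult_lim {e' y' : ℕ → V n} {e y : V n} (hy : y ≠ 0) (he' : Tendsto e' atTop (𝓝 e))
    (hy' : Tendsto y' atTop (𝓝 y)) (hne : ∀ a : ℝ, e ≠ a • y) :
    ∀ᶠ k in atTop, ∀ a : ℝ, e' k ≠ a • y' k := by
  by_contra hcon
  rw [not_eventually] at hcon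
  obtain ⟨i, hi⟩ : ∃ i, y i ≠ 0 := by
    by_contra hno
    push Not at hno
    exact hy (funext hno)
  have hyi : Tendsto (fun k => y' k i) atTop (𝓝 (y i)) := (tendsto_pi_nhds.1 hy') i
  have hei : Tendsto (fun k => e' k i) atTop (𝓝 (e i)) := (tendsto_pi_nhds.1 he') i
  have hq : Tendsto (fun k => (e' k i / y' k i) • y' k) atTop (𝓝 ((e i / y i) • y)) :=
    (hei.div hyi hi).smul hy'
  have hd : Tendsto (fun k => e' k - (e' k i / y' k i) • y' k) atTop
      (𝓝 (e - (e i / y i) • y)) := he'.sub hq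
  have hne0 : ∀ᶠ k in atTop, y' k i ≠ 0 := hyi.eventually_ne hi
  have hfr : ∃ᶠ k in atTop, e' k - (e' k i / y' k i) • y' k = 0 := by
    refine (hcon.and_eventually hne0).mono ?_
    rintro k ⟨hk, hk0⟩
    push Not at hk
    obtain ⟨a, ha⟩ := hk
    have h1 : e' k i = a * y' k i := by
      rw [ha]; rfl
    rw [h1, mul_div_assoc, div_self hk0, mul_one, ha, sub_self]
  have hz : e - (e i / y i) • y = 0 := by
    by_contra hnz
    exact hfr (hd.eventually_ne hnz)
  exact hne _ (sub_eq_zero.1 hz)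

/-- the subsequence principle for the slices -/
theorem sub_lim (hb : SlbStmt) (hc : SlcStmt) (hd : SldStmt) (hS : SL C Γ Γ₀ p J c F)
    {z : Fin K → V n} (hz : F z) {m : Fin K} (hm : m ∈ J) {x : ℕ → Fin K → V n}
    (hx : ∀ k, F (x k)) (hlim : ∀ i, Tendsto (fun k => x k i) atTop (𝓝 (z i))) :
    ∃ φ : ℕ → ℕ, StrictMono φ ∧ LimS (fun k => Es C F p m (x (φ k))) (Es C F p m z) ∧
      ∀ e, Tm C F p m z e → ∀ ε : ℝ, 0 < ε →
        ∀ᶠ k in atTop, ∃ e', Tm C F p m (x (φ k)) e' ∧ dist e e' < ε := by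
  have hpm : p ≠ m := fun h => hS.pJ (h ▸ hm)
  have hcc := hS.cc
  have hP := hcc.toPCone
  have hzP := hS.pes z hz
  have hcl : ∀ i, z i ∈ closure C := fun i => hzP.1.cl i
  obtain ⟨φ, E', hφ, hLS, hIB, hfr, happ, -⟩ := hc n C Γ hcc K hS.three hS.maxc x z
    (fun k => hS.pes _ (hx k)) hzP hlim p m hpm (fun k => Es C F p m (x k)) (c m)
    (fun k => hS.box _ (hx k) m hm) (fun k => hS.dim _ (hx k) m hm)
  have hxφ : ∀ i, Tendsto (fun k => x (φ k) i) atTop (𝓝 (z i)) := fun i =>
    (hlim i).comp hφ.tendsto_atTop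
  obtain ⟨hb1, hb2, hb3, hb4, hb5, hb6⟩ := hb n C Γ hcc K hS.three hS.maxc z hzP p m hpm E' hIB
  have hzm : z m ≠ 0 := hb5.2.2.1
  -- approximations are eventually moves
  have hev : ∀ e, PCO.Bd C E' e → (∀ a : ℝ, e ≠ a • z m) → ∃ e' : ℕ → V n,
      Tendsto e' atTop (𝓝 e) ∧ ∀ᶠ k in atTop, Tm C F p m (x (φ k)) (e' k) := by
    intro e he hne
    obtain ⟨e', he', hte⟩ := happ e he
    refine ⟨e', hte, ?_⟩
    refine (mult_lim hzm hte (hxφ m) hne).mono fun k hk => ?_
    exact (hS.bd _ (hx (φ k)) m hm (e' k)).2 ⟨he' k, hk⟩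
  have hTm : ∀ e, PCO.Bd C E' e → (∀ a : ℝ, e ≠ a • z m) → Tm C F p m z e := by
    intro e he hne
    obtain ⟨e', hte, hev'⟩ := hev e he hne
    obtain ⟨N, hN⟩ := eventually_atTop.1 hev'
    have hpes := (hb2 e he hne).1
    refine ⟨?_, hb1 e he.1⟩
    refine hS.cld (fun k => Function.update (x (φ (k + N))) p (e' (k + N))) _
      (fun k => (hN (k + N) (Nat.le_add_left N k)).1) ?_ ?_
    · intro i
      by_cases hi : i = p
      · subst hi
        simp only [Function.update_self]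
        exact (tendsto_add_atTop_iff_nat N).2 hte
      · simp only [Function.update_of_ne hi]
        exact (tendsto_add_atTop_iff_nat N).2 (hxφ i)
    · exact hpes.1.sum_mem
  have hE : E' = Es C F p m z := by
    have h1 : E' ≤ Es C F p m z := by
      rw [(hd n C Γ hcc K hS.three hS.maxc z hzP p m hpm E' hIB).2]
      refine Submodule.span_mono ?_
      refine Set.union_subset_union (le_refl _) ?_
      rintro h ⟨h1, h2⟩
      exact hTm h h1 h2
    refine Submodule.eq_of_le_of_finrank_eq h1 ?_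
    rw [hfr, hS.dim z hz m hm]
  refine ⟨φ, hφ, ?_, ?_⟩
  · rw [← hE]; exact hLS
  · intro e he ε hε
    obtain ⟨he1, he2⟩ := (hS.bd z hz m hm e).1 he
    rw [← hE] at he1
    obtain ⟨e', hte, hev'⟩ := hev e he1 he2
    have h3 : ∀ᶠ k in atTop, dist (e' k) e < ε := (Metric.tendsto_nhds.1 hte) ε hε
    refine (hev'.and h3).mono fun k hk => ⟨e' k, hk.1, ?_⟩
    rw [dist_comm]
    exact hk.2

/-- row CES -/
theorem ces (hb : SlbStmt) (hc : SlcStmt) (hd : SldStmt) : CesStmt := by
  intro n C Γ Γ₀ K p J c F hS z hz m hm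
  have hpm : p ≠ m := fun h => hS.pJ (h ▸ hm)
  have hcc := hS.cc
  have hP := hcc.toPCone
  have hzP := hS.pes z hz
  have hcl : ∀ i, z i ∈ closure C := fun i => hzP.1.cl i
  refine ⟨⟨?_, ?_, self_mv hS hz m⟩, ?_, ?_, ?_, ?_⟩
  · exact Submodule.subset_span (Or.inr (self_mv hS hz m))
  · exact Submodule.subset_span (Or.inl rfl)
  · intro h hh
    obtain ⟨hh1, hh2⟩ := (hS.bd z hz m hm h).1 hh
    obtain ⟨-, hb2, -⟩ := hb n C Γ hcc K hS.three hS.maxc z hzP p m hpm _ (hS.box z hz m hm)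
    obtain ⟨-, hD, -⟩ := hb2 h hh1 hh2
    have hiff : ∀ h', Tm C F p m (Function.update z p h) h' ↔ Tm C F p m z h' := by
      intro h'
      unfold Tm
      rw [Function.update_idem, Function.update_self, Function.update_of_ne hpm.symm]
      refine and_congr_right fun _ => ⟨fun h3 => ?_, fun h3 => ?_⟩
      · exact dm_trans hP h3 (dm_add hP (hcl p) hh.2)
      · exact dm_trans hP h3 (dm_add hP hh1.2.1 hD)
    refine ⟨es_congr (Function.update_of_ne hpm.symm _ _) hiff, hD, hiff⟩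
  · intro r hr
    exact ⟨es_scale hS hz m hr, fun h => tm_scale hS hz m hr h⟩
  · intro g hg s hs
    exact ⟨es_act hS hz m hg hs, fun h => tm_act hS m hg hs h⟩
  · intro x hx hlim
    refine ⟨⟨?_, ?_⟩, ?_⟩
    · intro v hv
      refine choose_seq (fun k => (Es C F p m (x k) : Set (V n))) v
        (fun k => ⟨0, Submodule.zero_mem _⟩) ?_
      intro ε hε
      by_contra hcon
      rw [not_eventually] at hcon
      obtain ⟨ψ, hψ, hψ2⟩ := extraction_of_frequently_atTop hcon
      obtain ⟨θ, hθ, hL, -⟩ := sub_lim hb hc hd hS hz hm (x := fun k => x (ψ k))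
        (fun k => hx _) (fun i => (hlim i).comp hψ.tendsto_atTop)
      obtain ⟨y, hy, hyt⟩ := hL.1 v hv
      have h3 : ∀ᶠ k in atTop, dist (y k) v < ε := (Metric.tendsto_nhds.1 hyt) ε hε
      obtain ⟨k, hk⟩ := h3.exists
      exact hψ2 (θ k) ⟨y k, hy k, by rw [dist_comm]; exact hk⟩
    · intro ψ y v hψ hy hyt
      obtain ⟨θ, hθ, hL, -⟩ := sub_lim hb hc hd hS hz hm (x := fun k => x (ψ k))
        (fun k => hx _) (fun i => (hlim i).comp hψ.tendsto_atTop)
      exact hL.2 id (fun k => y (θ k)) v strictMono_id (fun k => hy (θ k))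
        (hyt.comp hθ.tendsto_atTop)
    · intro e he
      refine choose_seq (fun k => {e' | Tm C F p m (x k) e'}) e
        (fun k => ⟨x k p, self_mv hS (hx k) m⟩) ?_
      intro ε hε
      by_contra hcon
      rw [not_eventually] at hcon
      obtain ⟨ψ, hψ, hψ2⟩ := extraction_of_frequently_atTop hcon
      obtain ⟨θ, hθ, -, hT⟩ := sub_lim hb hc hd hS hz hm (x := fun k => x (ψ k))
        (fun k => hx _) (fun i => (hlim i).comp hψ.tendsto_atTop)
      obtain ⟨k, e', he', hde⟩ := (hT e he ε hε).exists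
      exact hψ2 (θ k) ⟨e', he', hde⟩

end Main

end Pool.Agent.VMX.H90
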